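import Mathlib
import Pool.Agent.H384R2.RuzsaEq2

set_option autoImplicit false

namespace Pool.Agent.Results.MP_d03285_co.LowerExponent

open Pool.Agent.H384R2.RuzsaEq

/-- 15 vectors in `(ℤ/5)³` -/
def S15 : Fin 15 → Fin 3 → ℕ :=
  ![![1, 2, 2], ![2, 2, 4], ![0, 4, 2], ![1, 2, 3], ![1, 0, 3], ![0, 1, 2], ![4, 2, 2],
    ![2, 3, 3], ![1, 4, 2], ![2, 3, 0], ![0, 4, 1], ![4, 3, 0], ![0, 3, 4], ![1, 0, 0],
    ![2, 2, 0]]

lemma S15_lt : ∀ a l, S15 a l < 5 := by decide +kernel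

lemma cert15 : ∀ a b c d : Fin 15,
    (∀ l, (S15 a l + 3 * S15 b l) % 5 = (2 * S15 c l + 2 * S15 d l) % 5) →
      (a = b ∧ b = c ∧ c = d) ∨
      0 < -3 * (4 : ℤ) ^ (a : ℕ) + (4 : ℤ) ^ (b : ℕ) + (4 : ℤ) ^ (c : ℕ) + (4 : ℤ) ^ (d : ℕ) := by
  decide +kernel

/-- `f(N) ≥ N^c` for all large `N`, for every `c < log 15 / log 125 = 0.5608…`
(the known lower bound is `f(N) ≫ N^(1/2)`). -/
theorem result : ∀ c : ℝ, c < Real.log 15 / Real.log 125 →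
    ∃ N₀ : ℕ, ∀ N ≥ N₀, (N : ℝ) ^ c ≤ f N := by
  intro c hc
  have h125 : Real.log 125 = ((3 : ℕ) : ℝ) * Real.log ((5 : ℕ) : ℝ) := by
    have : (125 : ℝ) = ((5 : ℕ) : ℝ) ^ (3 : ℕ) := by norm_num
    rw [this, Real.log_pow]
  have hpos : 0 < Real.log 15 / Real.log 125 :=
    div_pos (Real.log_pos (by norm_num)) (Real.log_pos (by norm_num))
  have hc' : max c 0 < Real.log ((15 : ℕ) : ℝ) / (((3 : ℕ) : ℝ) * Real.log ((5 : ℕ) : ℝ)) := by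
    rw [← h125]
    push_cast
    exact max_lt hc hpos
  obtain ⟨N₀, hN₀⟩ := f_ge_rpow (K := 15) (k := 3) 5 S15 (by norm_num) (by norm_num) (by norm_num)
    S15_lt (fun a => -3 * (4 : ℤ) ^ (a : ℕ)) (fun a => (4 : ℤ) ^ (a : ℕ))
    (fun a => (4 : ℤ) ^ (a : ℕ)) (fun a => by ring) cert15 (max c 0) (le_max_right _ _) hc'
  refine ⟨max N₀ 1, fun N hN => ?_⟩
  have h1 : (1 : ℝ) ≤ N := by exact_mod_cast (le_max_right _ _).trans hN
  exact (Real.rpow_le_rpow_of_exponent_le h1 (le_max_left _ _)).trans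
    (hN₀ N ((le_max_left _ _).trans hN))

end Pool.Agent.Results.MP_d03285_co.LowerExponent
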