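import Pool.Agent.H247R2.RZ.Data83

/-!
# MP_d03285_co: sets avoiding `x + 3y = 2z + 2w` of size `N ^ 0.54`

We break the exponent `1/2` in Ruzsa's lower bound: for every `α < log 11 / log 83 = 0.5426…`
there is `c > 0` with `f(N) ≥ c N ^ α` for all `N ≥ 1`.  The sets constructed contain no
solution at all besides `x = y = z = w`.
-/

namespace Pool.Agent.Results.MP_d03285_co.PowerAboveHalf

open Finset

/-- `A` contains no pairwise distinct `x, y, z, w` with `x + 3y = 2z + 2w`. -/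
def Admissible (A : Finset ℕ) : Prop :=
  ∀ x ∈ A, ∀ y ∈ A, ∀ z ∈ A, ∀ w ∈ A,
    x ≠ y → x ≠ z → x ≠ w → y ≠ z → y ≠ w → z ≠ w → x + 3 * y ≠ 2 * z + 2 * w

/-- The largest size of an admissible subset of `{1, …, N}`. -/
noncomputable def f (N : ℕ) : ℕ :=
  sSup {m : ℕ | ∃ A ⊆ Finset.Icc 1 N, Admissible A ∧ A.card = m}

/-- `A` contains no solution of `x + 3y = 2z + 2w` other than `x = y = z = w`. -/
def OnlyTrivial (A : Finset ℕ) : Prop :=
  ∀ x ∈ A, ∀ y ∈ A, ∀ z ∈ A, ∀ w ∈ A, x + 3 * y = 2 * z + 2 * w → x = y ∧ x = z ∧ x = w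

theorem le_f {N : ℕ} {A : Finset ℕ} (hA : A ⊆ Finset.Icc 1 N) (h : OnlyTrivial A) :
    A.card ≤ f N := by
  apply le_csSup
  · refine ⟨N, ?_⟩
    rintro m ⟨B, hB, -, rfl⟩
    simpa using Finset.card_le_card hB
  · refine ⟨A, hA, ?_, rfl⟩
    intro x hx y hy z hz w hw hxy _ _ _ _ _ heq
    exact hxy (h x hx y hy z hz w hw heq).1

theorem result :
    (27 / 50 : ℝ) < Real.log 11 / Real.log 83 ∧
    ∀ α : ℝ, α < Real.log 11 / Real.log 83 →
      ∃ c : ℝ, 0 < c ∧ ∀ N : ℕ, 1 ≤ N →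
        (∃ A ⊆ Finset.Icc 1 N, OnlyTrivial A ∧ c * (N : ℝ) ^ α ≤ A.card) ∧
        c * (N : ℝ) ^ α ≤ f N := by
  have h83 : 0 < Real.log 83 := Real.log_pos (by norm_num)
  refine ⟨?_, ?_⟩
  · rw [lt_div_iff₀ h83]
    have h : Real.log ((83 : ℝ) ^ 27) < Real.log ((11 : ℝ) ^ 50) :=
      Real.log_lt_log (by norm_num) (by norm_num)
    rw [Real.log_pow, Real.log_pow] at h
    push_cast at h
    linarith
  · intro α hα
    have hα' : max α 0 < Real.log 11 / Real.log 83 :=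
      max_lt hα (div_pos (Real.log_pos (by norm_num)) h83)
    have hpow : (83 : ℝ) ^ (max α 0) < 11 := by
      rw [lt_div_iff₀ h83] at hα'
      have h1 : Real.log ((83 : ℝ) ^ (max α 0)) < Real.log 11 := by
        rwa [Real.log_rpow (by norm_num)]
      exact (Real.log_lt_log_iff (by positivity) (by norm_num)).mp h1
    obtain ⟨c, hc, h⟩ := H247R2.RZ.lower_bound H247R2.RZ.P83
      (by change (2 : ℤ) ≤ 83; norm_num) (le_max_right α 0)
      (by
        have : ((H247R2.RZ.P83.q : ℤ) : ℝ) = 83 := by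
          change (((83 : ℤ)) : ℝ) = 83
          norm_num
        rw [this]
        exact_mod_cast hpow)
    refine ⟨c, hc, ?_⟩
    intro N hN
    obtain ⟨A, hA1, hA2, hA3⟩ := h N hN
    have hN1 : (1 : ℝ) ≤ N := by exact_mod_cast hN
    have hle : (N : ℝ) ^ α ≤ (N : ℝ) ^ (max α 0) :=
      Real.rpow_le_rpow_of_exponent_le hN1 (le_max_left α 0)
    have h1 : c * (N : ℝ) ^ α ≤ A.card := (mul_le_mul_of_nonneg_left hle hc.le).trans hA3
    refine ⟨⟨A, hA1, hA2, h1⟩, h1.trans ?_⟩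
    exact_mod_cast le_f hA1 hA2

end Pool.Agent.Results.MP_d03285_co.PowerAboveHalf
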